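import Pool.Agent.Lib.Sym40.Trace
import Pool.Agent.Lib.Sym40.Num

set_option autoImplicit false

namespace Pool.Agent.Results.MP_40fe51_an.CompressibleSystems

open Finset

/-- Few vectors of an incoherent system have half of their mass on a given set of coordinates. -/
lemma local_bound {𝕜 : Type*} [RCLike 𝕜] {n N : ℕ} {μ : ℝ} (h0 : 0 < μ) (h1 : μ ≤ 1 / 16)
    (f : Fin N → Fin n → 𝕜) (hf1 : ∀ i, ∑ a, ‖f i a‖ ^ 2 = 1)
    (hf2 : ∀ i j, i ≠ j → ‖∑ a, (starRingEnd 𝕜) (f i a) * f j a‖ ≤ μ)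
    (W : Finset (Fin n)) (hw : 1 ≤ W.card) (I : Finset (Fin N))
    (hI : ∀ i ∈ I, 1 / 2 ≤ ∑ a ∈ W, ‖f i a‖ ^ 2) :
    (I.card : ℝ) ≤ (1 / μ) ^ 2 * Real.exp (128 * W.card * μ ^ 2 * Real.log (1 / μ)) := by
  classical
  obtain ⟨k, hk1, hk2⟩ := Pool.Agent.Lib.Sym40.num h0 h1 hw
  have hc : 0 < (1 - μ) / 2 := by linarith
  have h := Pool.Agent.Lib.Sym40.trace_lemma (ι := ↥I) W (fun i => f i.1) k h0.le hc
    (fun i => hf1 i.1) (fun i j hij => hf2 i.1 j.1 (fun h => hij (Subtype.ext h)))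
    (fun i => by
      have := hI i.1 i.2
      linarith) hk1
  rw [Fintype.card_coe] at h
  refine le_trans ?_ hk2
  rw [le_div_iff₀ (by positivity)]
  exact h

/-- averaging over all sets of `w` coordinates -/
lemma average {n N r w : ℕ} (hrw : r ≤ w) (S : Fin N → Finset (Fin n))
    (hS : ∀ i, (S i).card = r) (M : ℝ)
    (hM : ∀ W : Finset (Fin n), W.card = w → ((univ.filter (fun i => S i ⊆ W)).card : ℝ) ≤ M) :
    (N : ℝ) * ((n - r).choose (w - r) : ℕ) ≤ (n.choose w : ℕ) * M := by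
  classical
  have h1 : ∀ i, (n - r).choose (w - r) ≤
      ((powersetCard w (univ : Finset (Fin n))).filter (fun W => S i ⊆ W)).card := by
    intro i
    have h2 : (powersetCard (w - r) (univ \ S i)).card = (n - r).choose (w - r) := by
      rw [card_powersetCard, card_sdiff_of_subset (subset_univ _), card_univ, Fintype.card_fin, hS i]
    rw [← h2]
    refine card_le_card_of_injOn (fun T => T ∪ S i) ?_ ?_
    · intro T hT
      rw [mem_coe, mem_powersetCard] at hT
      rw [mem_coe, mem_filter, mem_powersetCard]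
      refine ⟨⟨subset_univ _, ?_⟩, subset_union_right⟩
      have hd : Disjoint T (S i) := by
        rw [disjoint_left]
        intro a ha
        exact (mem_sdiff.1 (hT.1 ha)).2
      rw [card_union_of_disjoint hd, hT.2, hS i]
      omega
    · intro T hT T' hT' h
      rw [mem_coe, mem_powersetCard] at hT hT'
      have hd : ∀ T : Finset (Fin n), T ⊆ univ \ S i → T = (T ∪ S i) \ S i := by
        intro T hT
        ext a
        simp only [mem_sdiff, mem_union]
        constructor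
        · intro ha
          exact ⟨Or.inl ha, (mem_sdiff.1 (hT ha)).2⟩
        · rintro ⟨ha | ha, hb⟩
          · exact ha
          · exact absurd ha hb
      rw [hd T hT.1, hd T' hT'.1]
      simp only at h
      rw [h]
  have h2 : N * (n - r).choose (w - r) ≤
      ∑ i : Fin N, ((powersetCard w (univ : Finset (Fin n))).filter (fun W => S i ⊆ W)).card := by
    calc N * (n - r).choose (w - r) = ∑ _i : Fin N, (n - r).choose (w - r) := by
          rw [sum_const, card_univ, Fintype.card_fin, smul_eq_mul]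
      _ ≤ _ := sum_le_sum fun i _ => h1 i
  have h3 : ∑ i : Fin N, ((powersetCard w (univ : Finset (Fin n))).filter (fun W => S i ⊆ W)).card
      = ∑ W ∈ powersetCard w (univ : Finset (Fin n)), (univ.filter (fun i => S i ⊆ W)).card := by
    simp_rw [card_filter]
    rw [sum_comm]
  have h4 : ((∑ W ∈ powersetCard w (univ : Finset (Fin n)),
      (univ.filter (fun i => S i ⊆ W)).card : ℕ) : ℝ) ≤ (n.choose w : ℕ) * M := by
    push_cast
    calc ∑ W ∈ powersetCard w (univ : Finset (Fin n)), ((univ.filter (fun i => S i ⊆ W)).card : ℝ)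
        ≤ ∑ _W ∈ powersetCard w (univ : Finset (Fin n)), M :=
          sum_le_sum fun W hW => hM W (mem_powersetCard.1 hW).2
      _ = (n.choose w : ℕ) * M := by
          rw [sum_const, card_powersetCard, card_univ, Fintype.card_fin, nsmul_eq_mul]
  rw [h3] at h2
  have h5 : ((N * (n - r).choose (w - r) : ℕ) : ℝ) ≤ _ := (Nat.cast_le.2 h2).trans h4
  push_cast at h5
  exact_mod_cast h5

lemma choose_ratio {n N r w : ℕ} (hr : 1 ≤ r) (hrw : 2 * r ≤ w) (hwn : w ≤ n) {M : ℝ}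
    (hM : 0 ≤ M) (h : (N : ℝ) * ((n - r).choose (w - r) : ℕ) ≤ (n.choose w : ℕ) * M) :
    (N : ℝ) ≤ (2 * n / w) ^ r * M := by
  have hw0 : (0 : ℝ) < w := by
    have : 0 < w := by omega
    exact_mod_cast this
  have h1 : n.choose w * w.choose r = n.choose r * (n - r).choose (w - r) :=
    Nat.choose_mul (by omega : r ≤ w)
  have h1' : (n.choose w : ℝ) * w.choose r = n.choose r * ((n - r).choose (w - r) : ℕ) := by
    exact_mod_cast h1
  have hpos : (0 : ℝ) < ((n - r).choose (w - r) : ℕ) := by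
    have : 0 < (n - r).choose (w - r) := Nat.choose_pos (by omega)
    exact_mod_cast this
  have h2 : (N : ℝ) * w.choose r ≤ n.choose r * M := by
    have h3 : ((N : ℝ) * w.choose r) * ((n - r).choose (w - r) : ℕ)
        ≤ (n.choose r * M) * ((n - r).choose (w - r) : ℕ) := by
      have h4 := mul_le_mul_of_nonneg_right h (Nat.cast_nonneg (α := ℝ) (w.choose r))
      have h5 : (n.choose w : ℝ) * M * w.choose r = n.choose r * M * ((n - r).choose (w - r) : ℕ) := by
        calc (n.choose w : ℝ) * M * w.choose r = ((n.choose w : ℝ) * w.choose r) * M := by ring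
          _ = _ := by rw [h1']; ring
      calc ((N : ℝ) * w.choose r) * ((n - r).choose (w - r) : ℕ)
          = (N : ℝ) * ((n - r).choose (w - r) : ℕ) * w.choose r := by ring
        _ ≤ (n.choose w : ℝ) * M * w.choose r := h4
        _ = _ := h5
    exact le_of_mul_le_mul_right h3 hpos
  have h3 : (n.choose r : ℝ) ≤ (n : ℝ) ^ r / (r.factorial : ℝ) := Nat.choose_le_pow_div r n
  have h4 : ((w + 1 - r : ℕ) : ℝ) ^ r ≤ (r.factorial : ℝ) * w.choose r := by
    have := Nat.pow_sub_le_descFactorial w r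
    rw [Nat.descFactorial_eq_factorial_mul_choose] at this
    exact_mod_cast this
  have hf : (0 : ℝ) < (r.factorial : ℝ) := by exact_mod_cast r.factorial_pos
  have h5 : (w : ℝ) / 2 ≤ ((w + 1 - r : ℕ) : ℝ) := by
    have h6 : w ≤ 2 * (w + 1 - r) := by omega
    have h7 : (w : ℝ) ≤ 2 * ((w + 1 - r : ℕ) : ℝ) := by exact_mod_cast h6
    linarith
  have h6 : ((w : ℝ) / 2) ^ r ≤ (r.factorial : ℝ) * w.choose r :=
    (pow_le_pow_left₀ (by positivity) h5 r).trans h4
  have h7 : (N : ℝ) * ((w : ℝ) / 2) ^ r ≤ (n : ℝ) ^ r * M := by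
    calc (N : ℝ) * ((w : ℝ) / 2) ^ r ≤ N * ((r.factorial : ℝ) * w.choose r) :=
          mul_le_mul_of_nonneg_left h6 (Nat.cast_nonneg _)
      _ = (r.factorial : ℝ) * (N * w.choose r) := by ring
      _ ≤ (r.factorial : ℝ) * (n.choose r * M) := mul_le_mul_of_nonneg_left h2 hf.le
      _ ≤ (r.factorial : ℝ) * ((n : ℝ) ^ r / (r.factorial : ℝ) * M) :=
          mul_le_mul_of_nonneg_left (mul_le_mul_of_nonneg_right h3 hM) hf.le
      _ = (n : ℝ) ^ r * M := by field_simp
  have h8 : (2 * (n : ℝ) / w) ^ r * ((w : ℝ) / 2) ^ r = (n : ℝ) ^ r := by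
    rw [← mul_pow]
    congr 1
    field_simp
  have h9 : (N : ℝ) * ((w : ℝ) / 2) ^ r ≤ ((2 * n / w) ^ r * M) * ((w : ℝ) / 2) ^ r := by
    calc (N : ℝ) * ((w : ℝ) / 2) ^ r ≤ (n : ℝ) ^ r * M := h7
      _ = ((2 * n / w) ^ r * M) * ((w : ℝ) / 2) ^ r := by rw [← h8]; ring
  exact le_of_mul_le_mul_right h9 (by positivity)

/-- Let `v_1, …, v_N` be unit vectors of `𝕜^n` (`𝕜 = ℝ` or `ℂ`) with coherence at most
`μ ≤ 1/16` and `b` an orthonormal basis such that every `v_i` has at least half of its squared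
norm on `r` of the basis vectors, where `1 ≤ r` and `2 r ≤ n μ² log (1/μ)`. Then
`N ≤ μ^(-2) (e^137 n μ² log (1/μ) / r)^r`. -/
theorem result {𝕜 : Type*} [RCLike 𝕜] {n N r : ℕ} {μ : ℝ} (h0 : 0 < μ) (h1 : μ ≤ 1 / 16)
    (hr : 1 ≤ r) (hrn : 2 * (r : ℝ) ≤ n * μ ^ 2 * Real.log (1 / μ))
    (v : Fin N → EuclideanSpace 𝕜 (Fin n)) (hv : ∀ i, ‖v i‖ = 1)
    (hcoh : ∀ i j, i ≠ j → ‖inner 𝕜 (v i) (v j)‖ ≤ μ)
    (b : OrthonormalBasis (Fin n) 𝕜 (EuclideanSpace 𝕜 (Fin n)))
    (hb : ∀ i, ∃ S : Finset (Fin n), S.card ≤ r ∧ 1 / 2 ≤ ∑ a ∈ S, ‖inner 𝕜 (b a) (v i)‖ ^ 2) :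
    (N : ℝ) ≤ (1 / μ) ^ 2 * (Real.exp 137 * n * μ ^ 2 * Real.log (1 / μ) / r) ^ r := by
  classical
  set L : ℝ := Real.log (1 / μ) with hL
  have hμi : 16 ≤ 1 / μ := by rw [le_div_iff₀ h0]; linarith
  have hL0 : 0 < L := Real.log_pos (by linarith)
  have hLμ : L ≤ 1 / μ := by
    have := Real.log_le_sub_one_of_pos (by positivity : (0 : ℝ) < 1 / μ)
    rw [hL]; linarith
  have hμL : μ ^ 2 * L ≤ 1 / 16 := by
    have h2 : μ ^ 2 * L ≤ μ ^ 2 * (1 / μ) := mul_le_mul_of_nonneg_left hLμ (by positivity)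
    have h3 : μ ^ 2 * (1 / μ) = μ := by field_simp
    linarith
  have hμL0 : 0 < μ ^ 2 * L := by positivity
  have hr0 : (1 : ℝ) ≤ r := by exact_mod_cast hr
  set w : ℕ := ⌈(r : ℝ) / (μ ^ 2 * L)⌉₊ with hw
  have hw1 : (r : ℝ) / (μ ^ 2 * L) ≤ w := Nat.le_ceil _
  have hw2 : (w : ℝ) < (r : ℝ) / (μ ^ 2 * L) + 1 := Nat.ceil_lt_add_one (by positivity)
  have hrw : 2 * r ≤ w := by
    have h2 : 2 * (r : ℝ) ≤ w := by
      refine le_trans ?_ hw1
      rw [le_div_iff₀ hμL0]
      nlinarith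
    exact_mod_cast h2
  have hwn : w ≤ n := by
    rw [hw, Nat.ceil_le, div_le_iff₀ hμL0]
    nlinarith
  have hwn0 : (0 : ℝ) < w := by
    have : 0 < w := by omega
    exact_mod_cast this
  -- coordinates
  set f : Fin N → Fin n → 𝕜 := fun i a => inner 𝕜 (b a) (v i) with hf
  have hf1 : ∀ i, ∑ a, ‖f i a‖ ^ 2 = 1 := by
    intro i
    simp only [hf]
    rw [b.sum_sq_norm_inner_right, hv i, one_pow]
  have hf2 : ∀ i j, i ≠ j → ‖∑ a, (starRingEnd 𝕜) (f i a) * f j a‖ ≤ μ := by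
    intro i j hij
    have h2 : ∑ a, (starRingEnd 𝕜) (f i a) * f j a = inner 𝕜 (v i) (v j) := by
      rw [← b.sum_inner_mul_inner (v i) (v j)]
      refine sum_congr rfl fun a _ => ?_
      simp only [hf]
      rw [inner_conj_symm]
    rw [h2]
    exact hcoh i j hij
  -- sets of exactly r coordinates
  have hS : ∀ i, ∃ S : Finset (Fin n), S.card = r ∧ 1 / 2 ≤ ∑ a ∈ S, ‖f i a‖ ^ 2 := by
    intro i
    obtain ⟨S, hSc, hSm⟩ := hb i
    obtain ⟨S', hSS', -, hS'c⟩ := exists_subsuperset_card_eq (subset_univ S) hSc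
      (by rw [card_univ, Fintype.card_fin]; omega)
    exact ⟨S', hS'c, hSm.trans (sum_le_sum_of_subset_of_nonneg hSS' fun _ _ _ => by positivity)⟩
  choose S hSc hSm using hS
  set M : ℝ := (1 / μ) ^ 2 * Real.exp (128 * w * μ ^ 2 * L) with hM
  have hM0 : 0 ≤ M := by positivity
  have hav := average (by omega : r ≤ w) S hSc M (by
    intro W hW
    have h2 := local_bound h0 h1 f hf1 hf2 W (by omega) (univ.filter (fun i => S i ⊆ W)) (by
      intro i hi
      rw [mem_filter] at hi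
      exact (hSm i).trans (sum_le_sum_of_subset_of_nonneg hi.2 fun _ _ _ => by positivity))
    rw [hW] at h2
    exact h2)
  have h2 := choose_ratio hr hrw hwn hM0 hav
  -- numerics
  have h3 : 2 * (n : ℝ) / w ≤ 2 * (n * μ ^ 2 * L / r) := by
    have hrpos : (0 : ℝ) < r := by linarith
    rw [div_le_iff₀ hwn0]
    have h4 : 2 * (n * μ ^ 2 * L / r) * ((r : ℝ) / (μ ^ 2 * L)) = 2 * n := by
      field_simp
    calc 2 * (n : ℝ) = 2 * (n * μ ^ 2 * L / r) * ((r : ℝ) / (μ ^ 2 * L)) := h4.symm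
      _ ≤ 2 * (n * μ ^ 2 * L / r) * w := mul_le_mul_of_nonneg_left hw1 (by positivity)
  have h4 : 128 * (w : ℝ) * μ ^ 2 * L ≤ 136 * r := by
    have h5 : (w : ℝ) * (μ ^ 2 * L) ≤ r + 1 / 16 := by
      have h6 : (w : ℝ) * (μ ^ 2 * L) ≤ ((r : ℝ) / (μ ^ 2 * L) + 1) * (μ ^ 2 * L) :=
        mul_le_mul_of_nonneg_right hw2.le hμL0.le
      have h7 : ((r : ℝ) / (μ ^ 2 * L) + 1) * (μ ^ 2 * L) = r + μ ^ 2 * L := by
        field_simp
      linarith
    nlinarith
  have h5 : M ≤ (1 / μ) ^ 2 * Real.exp 136 ^ r := by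
    rw [hM, ← Real.exp_nat_mul]
    refine mul_le_mul_of_nonneg_left (Real.exp_le_exp.2 ?_) (by positivity)
    linarith
  have h6 : (2 : ℝ) ≤ Real.exp 1 := by
    have := Real.add_one_le_exp (1 : ℝ)
    linarith
  have h7 : Real.exp 137 = Real.exp 136 * Real.exp 1 := by
    rw [← Real.exp_add]; norm_num
  have hnn : 0 ≤ n * μ ^ 2 * L / r := by positivity
  calc (N : ℝ) ≤ (2 * n / w) ^ r * M := h2
    _ ≤ (2 * (n * μ ^ 2 * L / r)) ^ r * ((1 / μ) ^ 2 * Real.exp 136 ^ r) :=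
        mul_le_mul (pow_le_pow_left₀ (by positivity) h3 r) h5 hM0 (by positivity)
    _ = (1 / μ) ^ 2 * (Real.exp 136 * 2 * (n * μ ^ 2 * L / r)) ^ r := by
        rw [mul_pow, mul_pow (Real.exp 136 * 2), mul_pow (Real.exp 136)]; ring
    _ ≤ (1 / μ) ^ 2 * (Real.exp 137 * n * μ ^ 2 * L / r) ^ r := by
        refine mul_le_mul_of_nonneg_left (pow_le_pow_left₀ (by positivity) ?_ r) (by positivity)
        rw [h7]
        calc Real.exp 136 * 2 * (n * μ ^ 2 * L / r)
            ≤ Real.exp 136 * Real.exp 1 * (n * μ ^ 2 * L / r) :=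
              mul_le_mul_of_nonneg_right
                (mul_le_mul_of_nonneg_left h6 (Real.exp_pos _).le) hnn
          _ = Real.exp 136 * Real.exp 1 * n * μ ^ 2 * L / r := by ring

end Pool.Agent.Results.MP_40fe51_an.CompressibleSystems
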