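import Pool.Agent.Lib.Sym40.Fin

namespace Pool.Agent.Results.MP_40fe51_an.LocalSymmetries

/-- Systems of coherence at most `μ` with local symmetries. `v` is a system of unit vectors in `𝕜 ^ n`,
`𝕜` the real or complex numbers, with coherence at most `μ ≤ 1 / 16`. Every `g` in `G` is a unitary map
which sends each vector of the system to a multiple of a vector of the system and is equal to the
scalar `lam g` on a subspace of codimension at most `r`, and no vector except `0` satisfies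
`g x = lam g • x` for all `g` in `G`. -/
theorem result {𝕜 : Type*} [RCLike 𝕜] {n N r : ℕ} {μ : ℝ} (h0 : 0 < μ) (h1 : μ ≤ 1 / 16)
    (hr : 1 ≤ r) (v : Fin N → EuclideanSpace 𝕜 (Fin n)) (hv : ∀ i, ‖v i‖ = 1)
    (hc : ∀ i j, i ≠ j → ‖inner 𝕜 (v i) (v j)‖ ≤ μ)
    (G : Set (EuclideanSpace 𝕜 (Fin n) ≃ₗᵢ[𝕜] EuclideanSpace 𝕜 (Fin n)))
    (hG : ∀ g ∈ G, ∀ i, ∃ j, ∃ ω : 𝕜, g (v i) = ω • v j)
    (lam : (EuclideanSpace 𝕜 (Fin n) ≃ₗᵢ[𝕜] EuclideanSpace 𝕜 (Fin n)) → 𝕜)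
    (hrank : ∀ g ∈ G, ∃ U : Submodule 𝕜 (EuclideanSpace 𝕜 (Fin n)),
      n ≤ Module.finrank 𝕜 U + r ∧ ∀ x ∈ U, g x = lam g • x)
    (hfix : ∀ x : EuclideanSpace 𝕜 (Fin n), (∀ g ∈ G, g x = lam g • x) → x = 0) :
    (N : ℝ) ≤ n * ((1 / μ) ^ 2 * Real.exp (128 * r * μ ^ 2 * Real.log (1 / μ))) := by
  have h := Pool.Agent.Lib.Sym40.fin_aux h0 h1 hr v hv hc G hG lam
    (by rw [finrank_euclideanSpace_fin]; exact hrank) hfix
  rwa [finrank_euclideanSpace_fin] at h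

end Pool.Agent.Results.MP_40fe51_an.LocalSymmetries
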