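import Pool.Agent.Lib.Sym40.Key
import Pool.Agent.Lib.Sym40.Num2

open Finset

namespace Pool.Agent.Results.MP_40fe51_an.Localisation

/-- Localised systems of coherence at most `μ`. `v` is a system of unit vectors in `𝕜 ^ n`, `𝕜` the real
or complex numbers, and each vector of the system has at least the share `c ≥ 16 μ` of its squared
norm in one of the `K` subspaces `W j` of dimension at most `r`. -/
theorem result {𝕜 : Type*} [RCLike 𝕜] {n N K r : ℕ} {μ c : ℝ} (h0 : 0 < μ) (h1 : 16 * μ ≤ c)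
    (h2 : c ≤ 1) (hr : 1 ≤ r) (v : Fin N → EuclideanSpace 𝕜 (Fin n)) (hv : ∀ i, ‖v i‖ = 1)
    (hc : ∀ i j, i ≠ j → ‖inner 𝕜 (v i) (v j)‖ ≤ μ)
    (W : Fin K → Submodule 𝕜 (EuclideanSpace 𝕜 (Fin n)))
    (hW : ∀ j, Module.finrank 𝕜 (W j) ≤ r)
    (hloc : ∀ i, ∃ j, c ≤ ‖(W j).starProjection (v i)‖ ^ 2) :
    (N : ℝ) ≤ K * ((1 / μ) ^ 2 * Real.exp (128 * r * (μ / c) ^ 2 * Real.log (1 / μ))) := by
  classical
  obtain ⟨k, hk1, hk2⟩ := Pool.Agent.Lib.Sym40.num2 h0 h1 h2 hr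
  have hc0 : 0 < c := by linarith
  have hcover : (univ : Finset (Fin N)) ⊆ (univ : Finset (Fin K)).biUnion fun j =>
      univ.filter fun i => c ≤ ‖(W j).starProjection (v i)‖ ^ 2 := by
    intro i _
    obtain ⟨j, hj⟩ := hloc i
    exact mem_biUnion.2 ⟨j, mem_univ _, mem_filter.2 ⟨mem_univ _, hj⟩⟩
  set b : ℝ := (1 / μ) ^ 2 * Real.exp (128 * r * (μ / c) ^ 2 * Real.log (1 / μ)) with hb
  have hx : ∀ j : Fin K,
      (((univ.filter fun i => c ≤ ‖(W j).starProjection (v i)‖ ^ 2).card : ℕ) : ℝ) ≤ b := by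
    intro j
    have h5 := Pool.Agent.Lib.Sym40.key_lemma (𝕜 := 𝕜)
      (fun i : {i // i ∈ (univ.filter fun i => c ≤ ‖(W j).starProjection (v i)‖ ^ 2)} => v i.1)
      (W j) k r (hW j) h0.le hc0 (fun i => hv i.1)
      (fun i j hij => hc i.1 j.1 fun h => hij (Subtype.ext h))
      (fun i => (mem_filter.1 i.2).2) hk1
    rw [Fintype.card_coe] at h5
    refine le_trans ?_ hk2
    rw [le_div_iff₀ (pow_pos hc0 _)]
    exact h5
  calc (N : ℝ) = (((univ : Finset (Fin N)).card : ℕ) : ℝ) := by simp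
    _ ≤ ((((univ : Finset (Fin K)).biUnion fun j =>
          univ.filter fun i => c ≤ ‖(W j).starProjection (v i)‖ ^ 2).card : ℕ) : ℝ) :=
        Nat.cast_le.2 (card_le_card hcover)
    _ ≤ ∑ j : Fin K, (((univ.filter fun i => c ≤ ‖(W j).starProjection (v i)‖ ^ 2).card : ℕ) : ℝ) := by
        have := card_biUnion_le (s := (univ : Finset (Fin K)))
          (t := fun j => univ.filter fun i => c ≤ ‖(W j).starProjection (v i)‖ ^ 2)
        exact_mod_cast this
    _ ≤ ∑ _j : Fin K, b := sum_le_sum fun j _ => hx j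
    _ = K * b := by rw [sum_const, card_univ, Fintype.card_fin, nsmul_eq_mul]

end Pool.Agent.Results.MP_40fe51_an.Localisation
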