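import Mathlib

/-!
# MP_40fe51_an: incoherent systems of polynomial phases in any number of variables

Unit vectors `n^(-1/2) (e(Q(y)))`, `y ∈ {0, …, q-1}^s`, `n = q^s`, with real polynomials `Q` in `s`
variables of total degree at most `D`.
-/

set_option autoImplicit false

namespace Pool.Agent.Results.MP_40fe51_an.PolynomialPhases

open Finset

/-- `e(t) = exp(2πit)` -/
noncomputable def e (t : ℝ) : ℂ := Complex.exp (((2 * Real.pi * t : ℝ) : ℂ) * Complex.I)

/-- the vector `q^(-s/2) (e(Q(y)))`, `y` in `{0, …, q-1}^s`, of `ℂ^n`, `n = q^s` -/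
noncomputable def phase (s q : ℕ) (Q : MvPolynomial (Fin s) ℝ) :
    EuclideanSpace ℂ (Fin s → Fin q) :=
  WithLp.toLp 2 (fun y => ((1 / Real.sqrt (q ^ s : ℕ) : ℝ) : ℂ) *
    e (MvPolynomial.eval (fun j => ((y j : ℕ) : ℝ)) Q))

/-- `∑_{t=1}^{D} C(u+t-1, t)`, the number of monomials of degree `1, …, D` in `u` variables -/
def monomials (u D : ℕ) : ℕ := ∑ t ∈ range D, (u + t).choose (t + 1)

lemma norm_e (t : ℝ) : ‖e t‖ = 1 := Complex.norm_exp_ofReal_mul_I _

lemma e_add (s t : ℝ) : e (s + t) = e s * e t := by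
  unfold e
  rw [← Complex.exp_add]
  congr 1
  push_cast
  ring

lemma re_e_mul_conj (t t' : ℝ) : (e t * (starRingEnd ℂ) (e t')).re =
    Real.cos (2 * Real.pi * (t - t')) := by
  unfold e
  rw [← Complex.exp_conj, map_mul, Complex.conj_ofReal, Complex.conj_I, ← Complex.exp_add]
  have h2 : (((2 * Real.pi * t : ℝ) : ℂ) * Complex.I + ((2 * Real.pi * t' : ℝ) : ℂ) * -Complex.I : ℂ)
      = ((2 * Real.pi * (t - t') : ℝ) : ℂ) * Complex.I := by
    push_cast; ring
  rw [h2, Complex.exp_ofReal_mul_I_re]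

lemma cos_ge (n : ℤ) (δ : ℝ) (hδ : |δ| ≤ 1 / 12) :
    4 / 5 ≤ Real.cos (2 * Real.pi * (n + δ)) := by
  have h1 : 2 * Real.pi * (n + δ) = 2 * Real.pi * δ + n * (2 * Real.pi) := by ring
  have hpi := Real.pi_pos
  have h2 : Real.cos (Real.pi / 6) ≤ Real.cos (2 * Real.pi * (n + δ)) := by
    rw [h1, Real.cos_add_int_mul_two_pi, ← Real.cos_abs (2 * Real.pi * δ)]
    apply Real.cos_le_cos_of_nonneg_of_le_pi (abs_nonneg _)
    · linarith
    · rw [abs_mul, abs_of_pos (by positivity : (0 : ℝ) < 2 * Real.pi)]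
      nlinarith
  rw [Real.cos_pi_div_six] at h2
  refine le_trans ?_ h2
  have : (8 / 5 : ℝ) ≤ Real.sqrt 3 := by
    apply Real.le_sqrt_of_sq_le
    norm_num
  linarith

/-- the energy of an aligned family against its coherence -/
lemma energy {κ : Type*} [DecidableEq κ] {ι : Type*} [Fintype ι] {M : ℕ} {μ n : ℝ} (hn : n = Fintype.card ι)
    (q : κ → ι → ℝ) (S : Finset κ)
    (hS : S.card = M) (z : κ → ℂ) (hz : ∀ a, ‖z a‖ = 1) (Y : Finset ι)
    (hY : ∀ y ∈ Y, 4 / 5 * (M : ℝ) ^ 2 ≤ ‖∑ a ∈ S, z a * e (q a y)‖ ^ 2)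
    (hcoh : ∀ a ∈ S, ∀ b ∈ S, a ≠ b → ‖∑ y, e (q a y) * (starRingEnd ℂ) (e (q b y))‖ ≤ μ * n)
    (hM : 1 ≤ M) :
    4 / 5 * (Y.card : ℝ) * (M : ℝ) ^ 2 ≤ n * (M + M * (M - 1) * μ) := by
  have h1 : ((∑ y, ‖∑ a ∈ S, z a * e (q a y)‖ ^ 2 : ℝ) : ℂ)
      = ∑ a ∈ S, ∑ b ∈ S, z a * (starRingEnd ℂ) (z b) *
        ∑ y, e (q a y) * (starRingEnd ℂ) (e (q b y)) := by
    push_cast
    have h2 : ∀ y, ((‖∑ a ∈ S, z a * e (q a y)‖ : ℝ) : ℂ) ^ 2
        = ∑ a ∈ S, ∑ b ∈ S, z a * (starRingEnd ℂ) (z b) *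
          (e (q a y) * (starRingEnd ℂ) (e (q b y))) := by
      intro y
      rw [← Complex.ofReal_pow, ← Complex.normSq_eq_norm_sq, ← Complex.mul_conj, map_sum,
        sum_mul_sum]
      refine sum_congr rfl fun a _ => sum_congr rfl fun b _ => ?_
      rw [map_mul]
      ring
    simp_rw [h2]
    rw [sum_comm]
    refine sum_congr rfl fun a _ => ?_
    rw [sum_comm]
    refine sum_congr rfl fun b _ => ?_
    rw [mul_sum]
  have h0 : 0 ≤ ∑ y, ‖∑ a ∈ S, z a * e (q a y)‖ ^ 2 := sum_nonneg fun y _ => by positivity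
  have h2 : ∑ y, ‖∑ a ∈ S, z a * e (q a y)‖ ^ 2
      ≤ ∑ a ∈ S, ∑ b ∈ S, ‖∑ y, e (q a y) * (starRingEnd ℂ) (e (q b y))‖ := by
    have h3 : ∑ y, ‖∑ a ∈ S, z a * e (q a y)‖ ^ 2
        = ‖((∑ y, ‖∑ a ∈ S, z a * e (q a y)‖ ^ 2 : ℝ) : ℂ)‖ := by
      rw [Complex.norm_real, Real.norm_of_nonneg h0]
    rw [h3, h1]
    refine (norm_sum_le _ _).trans (sum_le_sum fun a _ => (norm_sum_le _ _).trans
      (sum_le_sum fun b _ => ?_))
    rw [norm_mul, norm_mul, RCLike.norm_conj, hz, hz, one_mul, one_mul]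
  have h3 : ∀ a ∈ S, ∑ b ∈ S, ‖∑ y, e (q a y) * (starRingEnd ℂ) (e (q b y))‖
      ≤ n + (M - 1) * (μ * n) := by
    intro a ha
    rw [← add_sum_erase S _ ha]
    have h4 : ‖∑ y, e (q a y) * (starRingEnd ℂ) (e (q a y))‖ ≤ n := by
      refine (norm_sum_le _ _).trans (le_of_eq ?_)
      rw [hn]
      simp [norm_e]
    have h5 : ∑ b ∈ S.erase a, ‖∑ y, e (q a y) * (starRingEnd ℂ) (e (q b y))‖
        ≤ ∑ _b ∈ S.erase a, μ * n := by
      refine sum_le_sum fun b hb => ?_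
      rw [mem_erase] at hb
      exact hcoh a ha b hb.2 (Ne.symm hb.1)
    rw [sum_const, card_erase_of_mem ha, hS, nsmul_eq_mul, Nat.cast_sub hM, Nat.cast_one] at h5
    linarith
  have h4 := sum_le_sum h3
  rw [sum_const, hS, nsmul_eq_mul] at h4
  have h5 : 4 / 5 * (Y.card : ℝ) * (M : ℝ) ^ 2 ≤ ∑ y, ‖∑ a ∈ S, z a * e (q a y)‖ ^ 2 := by
    calc 4 / 5 * (Y.card : ℝ) * (M : ℝ) ^ 2 = ∑ _y ∈ Y, 4 / 5 * (M : ℝ) ^ 2 := by
          rw [sum_const, nsmul_eq_mul]; ring
      _ ≤ ∑ y ∈ Y, ‖∑ a ∈ S, z a * e (q a y)‖ ^ 2 := sum_le_sum hY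
      _ ≤ _ := sum_le_sum_of_subset_of_nonneg (subset_univ _) fun y _ _ => by positivity
  calc 4 / 5 * (Y.card : ℝ) * (M : ℝ) ^ 2 ≤ M * (n + (M - 1) * (μ * n)) := h5.trans (h2.trans h4)
    _ = n * (M + M * (M - 1) * μ) := by ring

/-- pigeonhole modulo one -/
lemma pigeon {κ J : Type*} [Fintype κ] [Fintype J] [DecidableEq J] {M : ℕ} (hM : 1 ≤ M) (c : κ → J → ℝ)
    (K : J → ℕ) (hK : ∀ j, 0 < K j) (hcard : (M - 1) * ∏ j, K j < Fintype.card κ) :
    ∃ S : Finset κ, S.card = M ∧ ∀ a ∈ S, ∀ b ∈ S, ∀ j, ∃ n : ℤ, ∃ δ : ℝ,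
      |δ| ≤ 1 / K j ∧ c a j - c b j = n + δ := by
  classical
  have hlt : ∀ a j, ⌊Int.fract (c a j) * K j⌋₊ < K j := by
    intro a j
    have h0 : (0 : ℝ) < K j := by exact_mod_cast hK j
    rw [Nat.floor_lt (mul_nonneg (Int.fract_nonneg _) h0.le)]
    have := Int.fract_lt_one (c a j)
    nlinarith
  set T : κ → (∀ j, Fin (K j)) := fun a j => ⟨⌊Int.fract (c a j) * K j⌋₊, hlt a j⟩ with hT
  obtain ⟨v, -, hv⟩ := exists_lt_card_fiber_of_mul_lt_card_of_maps_to
    (s := (univ : Finset κ)) (t := (univ : Finset (∀ j, Fin (K j)))) (f := T) (n := M - 1)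
    (fun a _ => mem_univ _)
    (by
      rw [card_univ, card_univ, Fintype.card_pi]
      simp only [Fintype.card_fin]
      rw [mul_comm]
      exact hcard)
  obtain ⟨S, hSv, hSc⟩ := exists_subset_card_eq (n := M)
    (s := univ.filter (fun a => T a = v)) (by omega)
  refine ⟨S, hSc, fun a ha b hb j => ?_⟩
  have hac : T a = v := (mem_filter.1 (hSv ha)).2
  have hbc : T b = v := (mem_filter.1 (hSv hb)).2
  have hL : (0 : ℝ) < K j := by exact_mod_cast hK j
  refine ⟨⌊c a j⌋ - ⌊c b j⌋, Int.fract (c a j) - Int.fract (c b j), ?_, ?_⟩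
  · have h1 : ⌊Int.fract (c a j) * K j⌋₊ = ⌊Int.fract (c b j) * K j⌋₊ := by
      have h2 := congrFun (hac.trans hbc.symm) j
      simpa [hT] using h2
    have h3 := Nat.floor_le (mul_nonneg (Int.fract_nonneg (c a j)) hL.le)
    have h4 := Nat.lt_floor_add_one (Int.fract (c a j) * K j)
    have h5 := Nat.floor_le (mul_nonneg (Int.fract_nonneg (c b j)) hL.le)
    have h6 := Nat.lt_floor_add_one (Int.fract (c b j) * K j)
    rw [h1] at h3 h4
    have h7 : |(Int.fract (c a j) - Int.fract (c b j)) * K j| ≤ 1 := by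
      rw [abs_le]; constructor <;> nlinarith
    rw [le_div_iff₀ hL, ← abs_of_pos hL, ← abs_mul]
    exact h7
  · push_cast
    have h1 := Int.floor_add_fract (c a j)
    have h2 := Int.floor_add_fract (c b j)
    linarith

/-- Columns whose coefficients agree up to `1 / (12 #J W j)` modulo one are aligned on `Y`. -/
lemma aligned {ι κ J : Type*} [Fintype J] {M : ℕ} (θ : κ → ι → ℝ) (f : J → ι → ℤ) (c0 : κ → ℝ)
    (c : κ → J → ℝ) (W : J → ℕ) (hW : ∀ j, 1 ≤ W j) (Y : Finset ι)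
    (hY : ∀ y ∈ Y, ∀ j, |f j y| ≤ W j)
    (hθ : ∀ y ∈ Y, ∀ a, θ a y = c0 a + ∑ j, c a j * f j y) (S : Finset κ) (hSc : S.card = M)
    (hS : ∀ a ∈ S, ∀ b ∈ S, ∀ j, ∃ n : ℤ, ∃ δ : ℝ,
      |δ| ≤ 1 / ((12 * Fintype.card J * W j : ℕ) : ℝ) ∧ c a j - c b j = n + δ) :
    ∀ y ∈ Y, 4 / 5 * (M : ℝ) ^ 2 ≤ ‖∑ a ∈ S, e (-c0 a) * e (θ a y)‖ ^ 2 := by
  intro y hy
  set P : κ → ℝ := fun a => ∑ j, c a j * f j y with hP
  have hterm : ∀ a, e (-c0 a) * e (θ a y) = e (P a) := by
    intro a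
    rw [← e_add, hθ y hy a]
    congr 1
    simp only [hP]
    ring
  simp_rw [hterm]
  have h4 : ‖∑ a ∈ S, e (P a)‖ ^ 2
      = ∑ a ∈ S, ∑ b ∈ S, (e (P a) * (starRingEnd ℂ) (e (P b))).re := by
    rw [← Complex.normSq_eq_norm_sq]
    have h5 : ((Complex.normSq (∑ a ∈ S, e (P a)) : ℝ) : ℂ)
        = ∑ a ∈ S, ∑ b ∈ S, e (P a) * (starRingEnd ℂ) (e (P b)) := by
      rw [← Complex.mul_conj, map_sum, sum_mul_sum]
    have h6 := congrArg Complex.re h5
    rw [Complex.ofReal_re] at h6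
    rw [h6, Complex.re_sum]
    refine sum_congr rfl fun j _ => ?_
    rw [Complex.re_sum]
  rw [h4]
  have h5 : ∑ a ∈ S, ∑ b ∈ S, (4 / 5 : ℝ)
      ≤ ∑ a ∈ S, ∑ b ∈ S, (e (P a) * (starRingEnd ℂ) (e (P b))).re := by
    refine sum_le_sum fun a ha => sum_le_sum fun b hb => ?_
    rw [re_e_mul_conj]
    have h6 := hS a ha b hb
    choose m δ hδ hmδ using h6
    have h7 : P a - P b = ((∑ j : J, m j * f j y : ℤ) : ℝ) + ∑ j : J, δ j * f j y := by
      simp only [hP]
      push_cast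
      rw [← sum_sub_distrib, ← sum_add_distrib]
      refine sum_congr rfl fun j _ => ?_
      rw [← sub_mul, hmδ j, add_mul]
    rw [h7]
    refine cos_ge _ _ ?_
    calc |∑ j : J, δ j * f j y| ≤ ∑ j : J, |δ j * f j y| := abs_sum_le_sum_abs _ _
      _ ≤ ∑ _j : J, 1 / (12 * (Fintype.card J : ℝ)) := by
          refine sum_le_sum fun j _ => ?_
          have hJ : (0 : ℝ) < Fintype.card J := by
            exact_mod_cast Fintype.card_pos_iff.mpr ⟨j⟩
          have hWj : (0 : ℝ) < W j := by exact_mod_cast hW j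
          have h8 := hδ j
          push_cast at h8
          have hf : |((f j y : ℤ) : ℝ)| ≤ W j := by
            have := hY y hy j
            exact_mod_cast this
          rw [abs_mul]
          calc |δ j| * |((f j y : ℤ) : ℝ)| ≤ 1 / (12 * Fintype.card J * W j) * W j :=
                mul_le_mul h8 hf (abs_nonneg _) (by positivity)
            _ = 1 / (12 * (Fintype.card J : ℝ)) := by field_simp
      _ ≤ 1 / 12 := by
          rw [sum_const, card_univ, nsmul_eq_mul]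
          rcases Nat.eq_zero_or_pos (Fintype.card J) with h0 | h0
          · rw [h0]; norm_num
          · have : (0 : ℝ) < Fintype.card J := by exact_mod_cast h0
            apply le_of_eq; field_simp
  rw [sum_const, sum_const, hSc, nsmul_eq_mul, nsmul_eq_mul] at h5
  refine le_trans (le_of_eq ?_) h5
  ring

/-- the exponent `α` of a monomial in the first `u` of `s` variables -/
noncomputable def extend {u s : ℕ} (α : Fin u → ℕ) : Fin s →₀ ℕ :=
  Finsupp.equivFunOnFinite.symm (fun j => if h : (j : ℕ) < u then α ⟨j, h⟩ else 0)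

lemma extend_apply {u s : ℕ} (α : Fin u → ℕ) (j : Fin s) :
    (extend α : Fin s →₀ ℕ) j = if h : (j : ℕ) < u then α ⟨j, h⟩ else 0 := rfl

lemma extend_castLE {u s : ℕ} (hu : u ≤ s) (α : Fin u → ℕ) (i : Fin u) :
    (extend α : Fin s →₀ ℕ) (Fin.castLE hu i) = α i := by
  rw [extend_apply]
  simp

lemma prod_extend {u s : ℕ} (hu : u ≤ s) (α : Fin u → ℕ) (y : Fin s → ℝ) :
    ∏ j, y j ^ (extend α : Fin s →₀ ℕ) j = ∏ i : Fin u, y (Fin.castLE hu i) ^ α i := by
  classical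
  have h1 : ∏ i : Fin u, y (Fin.castLE hu i) ^ α i
      = ∏ j ∈ (univ : Finset (Fin u)).map (Fin.castLEEmb hu),
          y j ^ (extend α : Fin s →₀ ℕ) j := by
    rw [prod_map]
    refine prod_congr rfl fun i _ => ?_
    have : (Fin.castLEEmb hu) i = Fin.castLE hu i := rfl
    rw [this, extend_castLE hu]
  rw [h1]
  symm
  refine prod_subset (subset_univ _) fun j _ hj => ?_
  have : ¬ (j : ℕ) < u := by
    intro h
    apply hj
    rw [mem_map]
    exact ⟨⟨j, h⟩, mem_univ _, rfl⟩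
  rw [extend_apply, dif_neg this, pow_zero]

lemma sum_extend {u s : ℕ} (hu : u ≤ s) (α : Fin u → ℕ) :
    ∑ j, (extend α : Fin s →₀ ℕ) j = ∑ i, α i := by
  classical
  have h1 : ∑ i : Fin u, α i
      = ∑ j ∈ (univ : Finset (Fin u)).map (Fin.castLEEmb hu), (extend α : Fin s →₀ ℕ) j := by
    rw [sum_map]
    refine sum_congr rfl fun i _ => ?_
    have : (Fin.castLEEmb hu) i = Fin.castLE hu i := rfl
    rw [this, extend_castLE hu]
  rw [h1]
  symm
  refine sum_subset (subset_univ _) fun j _ hj => ?_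
  have : ¬ (j : ℕ) < u := by
    intro h
    apply hj
    rw [mem_map]
    exact ⟨⟨j, h⟩, mem_univ _, rfl⟩
  rw [extend_apply, dif_neg this]

/-- A polynomial of total degree at most `D` at a point whose coordinates vanish from `u` on. -/
lemma eval_box {s D u : ℕ} (hu : u ≤ s) (Q : MvPolynomial (Fin s) ℝ) (hQ : Q.totalDegree ≤ D)
    (y : Fin s → ℝ) (hy : ∀ j : Fin s, u ≤ (j : ℕ) → y j = 0) :
    MvPolynomial.eval y Q = ∑ t ∈ range (D + 1), ∑ α ∈ piAntidiag (univ : Finset (Fin u)) t,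
      Q.coeff (extend α) * ∏ i : Fin u, y (Fin.castLE hu i) ^ α i := by
  classical
  set F : (Fin s →₀ ℕ) → ℝ := fun d => Q.coeff d * ∏ j, y j ^ d j with hF
  set P : Finset (Σ _ : ℕ, Fin u → ℕ) :=
    (range (D + 1)).sigma (fun t => piAntidiag (univ : Finset (Fin u)) t) with hP
  have e1 : ∑ t ∈ range (D + 1), ∑ α ∈ piAntidiag (univ : Finset (Fin u)) t,
      Q.coeff (extend α) * ∏ i : Fin u, y (Fin.castLE hu i) ^ α i
      = ∑ p ∈ P, F (extend p.2) := by
    rw [hP, sum_sigma]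
    refine sum_congr rfl fun t _ => sum_congr rfl fun α _ => ?_
    rw [hF]
    simp only
    rw [prod_extend hu]
  have hmem : ∀ p : (Σ _ : ℕ, Fin u → ℕ), p ∈ P ↔ p.1 ≤ D ∧ ∑ i, p.2 i = p.1 := by
    intro p
    rw [hP, mem_sigma, mem_range, mem_piAntidiag]
    constructor
    · rintro ⟨h1, h2, -⟩
      exact ⟨by omega, h2⟩
    · rintro ⟨h1, h2⟩
      exact ⟨by omega, h2, fun _ _ => mem_univ _⟩
  have hinj : Set.InjOn (fun p : (Σ _ : ℕ, Fin u → ℕ) => (extend p.2 : Fin s →₀ ℕ)) (P : Set _) := by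
    rintro ⟨t, α⟩ hp ⟨t', α'⟩ hp' h
    rw [mem_coe, hmem] at hp hp'
    simp only at hp hp' h
    have h1 : α = α' := by
      funext i
      rw [← extend_castLE hu α i, ← extend_castLE hu α' i, h]
    subst h1
    have h2 : t = t' := by rw [← hp.2, ← hp'.2]
    subst h2
    rfl
  rw [e1, ← sum_image (f := F) hinj, MvPolynomial.eval_eq']
  set I : Finset (Fin s →₀ ℕ) := P.image (fun p => extend p.2) with hI
  have e2 : ∑ d ∈ Q.support, F d = ∑ d ∈ Q.support ∪ I, F d := by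
    refine sum_subset subset_union_left fun d _ hd => ?_
    rw [hF]
    simp only
    rw [MvPolynomial.notMem_support_iff.1 hd, zero_mul]
  have e3 : ∑ d ∈ I, F d = ∑ d ∈ Q.support ∪ I, F d := by
    refine sum_subset subset_union_right fun d hd hdI => ?_
    have hdS : d ∈ Q.support := by
      rcases mem_union.1 hd with h | h
      · exact h
      · exact absurd h hdI
    have hex : ∃ j : Fin s, u ≤ (j : ℕ) ∧ d j ≠ 0 := by
      by_contra hcon
      push Not at hcon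
      apply hdI
      rw [hI, mem_image]
      have hde : (extend (fun i : Fin u => d (Fin.castLE hu i)) : Fin s →₀ ℕ) = d := by
        ext j
        rw [extend_apply]
        split_ifs with h
        · rfl
        · exact (hcon j (by omega)).symm
      refine ⟨⟨∑ i : Fin u, d (Fin.castLE hu i), fun i => d (Fin.castLE hu i)⟩, ?_, hde⟩
      rw [hmem]
      refine ⟨?_, rfl⟩
      simp only
      rw [← sum_extend hu, hde]
      have h5 := MvPolynomial.le_totalDegree hdS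
      rw [Finsupp.sum_fintype _ _ (fun _ => rfl)] at h5
      exact h5.trans hQ
    obtain ⟨j, hj, hdj⟩ := hex
    rw [hF]
    simp only
    rw [prod_eq_zero (mem_univ j) (by rw [hy j hj]; exact zero_pow hdj), mul_zero]
  rw [e3, ← e2]

lemma norm_inner_phase {s q : ℕ} (hq : 1 ≤ q) (P Q : MvPolynomial (Fin s) ℝ) :
    ‖∑ y : Fin s → Fin q, e (MvPolynomial.eval (fun j => ((y j : ℕ) : ℝ)) Q) *
        (starRingEnd ℂ) (e (MvPolynomial.eval (fun j => ((y j : ℕ) : ℝ)) P))‖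
      = ‖inner ℂ (phase s q P) (phase s q Q)‖ * (q : ℝ) ^ s := by
  have hn1 : 1 ≤ q ^ s := Nat.one_le_pow _ _ hq
  have hn0 : (0 : ℝ) < (q ^ s : ℕ) := by exact_mod_cast hn1
  have h1 : inner ℂ (phase s q P) (phase s q Q) = ((1 / (q ^ s : ℕ) : ℝ) : ℂ) *
      ∑ y : Fin s → Fin q, e (MvPolynomial.eval (fun j => ((y j : ℕ) : ℝ)) Q) *
        (starRingEnd ℂ) (e (MvPolynomial.eval (fun j => ((y j : ℕ) : ℝ)) P)) := by
    rw [PiLp.inner_apply, mul_sum]
    refine sum_congr rfl fun y _ => ?_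
    have h2 : ((1 / Real.sqrt (q ^ s : ℕ) : ℝ) : ℂ) * ((1 / Real.sqrt (q ^ s : ℕ) : ℝ) : ℂ)
        = ((1 / (q ^ s : ℕ) : ℝ) : ℂ) := by
      rw [← Complex.ofReal_mul]
      congr 1
      rw [div_mul_div_comm, Real.mul_self_sqrt hn0.le, one_mul]
    simp only [phase]
    rw [RCLike.inner_apply, map_mul, Complex.conj_ofReal, ← h2]
    ring
  rw [h1, norm_mul, Complex.norm_real, Real.norm_of_nonneg (by positivity)]
  push_cast
  have : (0 : ℝ) < (q : ℝ) ^ s := by exact_mod_cast hn1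
  field_simp

/-- Let `Q_1, …, Q_N` be real polynomials in `s` variables of total degree at most `D` such that
the unit vectors `n^(-1/2) (e(Q_a(y)))`, `y ∈ {0, …, q-1}^s`, `n = q^s`, have coherence at most `μ`.
If `u ≤ s`, `w ≤ q` and `5 μ n < 4 w^u`, then
`N ≤ 5 (1 - μ) n / (4 w^u - 5 μ n) * ∏_{t=1}^D (12 b w^t)^C(u+t-1,t)`, `b = ∑_{t=1}^D C(u+t-1,t)`. -/
theorem result {s q D N : ℕ} (hq : 1 ≤ q) {μ : ℝ} (hμ0 : 0 ≤ μ)
    (Q : Fin N → MvPolynomial (Fin s) ℝ) (hQ : ∀ a, (Q a).totalDegree ≤ D)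
    (hcoh : ∀ a b, a ≠ b → ‖inner ℂ (phase s q (Q a)) (phase s q (Q b))‖ ≤ μ)
    (u w : ℕ) (hu : u ≤ s) (hw : w ≤ q) (huw : 5 * μ * (q : ℝ) ^ s < 4 * (w : ℝ) ^ u) :
    (N : ℝ) ≤ 5 * (1 - μ) * (q : ℝ) ^ s / (4 * (w : ℝ) ^ u - 5 * μ * (q : ℝ) ^ s) *
      ∏ t ∈ range D, (12 * (monomials u D : ℝ) * (w : ℝ) ^ (t + 1)) ^ (u + t).choose (t + 1) := by
  classical
  by_contra hcon
  push Not at hcon
  have hqs : (0 : ℝ) < (q : ℝ) ^ s := by
    have : (0 : ℝ) < q := by exact_mod_cast hq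
    positivity
  have hwuR : (0 : ℝ) < (w : ℝ) ^ u := by
    have h1 : 0 ≤ 5 * μ * (q : ℝ) ^ s := by positivity
    linarith
  have hwu : 0 < w ^ u := by exact_mod_cast hwuR
  have hwq : (w : ℝ) ^ u ≤ (q : ℝ) ^ s := by
    have h1 : w ^ u ≤ q ^ s :=
      (Nat.pow_le_pow_left hw u).trans (Nat.pow_le_pow_right hq hu)
    exact_mod_cast h1
  have hμ1 : μ < 1 := by nlinarith
  have hden : 0 < 4 * (w : ℝ) ^ u - 5 * μ * (q : ℝ) ^ s := by linarith
  set R : ℝ := 5 * (1 - μ) * (q : ℝ) ^ s / (4 * (w : ℝ) ^ u - 5 * μ * (q : ℝ) ^ s) with hR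
  have hR0 : 0 ≤ R := by
    rw [hR]
    have : 0 ≤ 1 - μ := by linarith
    positivity
  set M : ℕ := ⌊R⌋₊ + 1 with hM
  have hMpos : 1 ≤ M := by omega
  have hM1 : R < M := by
    rw [hM]
    push_cast
    exact Nat.lt_floor_add_one R
  have hM2 : (M : ℝ) - 1 ≤ R := by
    rw [hM]
    push_cast
    have := Nat.floor_le hR0
    linarith
  let J : Type :=
    (t : Fin D) × {α : Fin u → ℕ // α ∈ piAntidiag (univ : Finset (Fin u)) ((t : ℕ) + 1)}
  have hcell : ∀ t : ℕ, (piAntidiag (univ : Finset (Fin u)) (t + 1)).card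
      = (u + t).choose (t + 1) := by
    intro t
    rw [← map_sym_eq_piAntidiag, card_map, sym_univ, card_univ, Sym.card_sym_eq_choose,
      Fintype.card_fin]
    congr 1
  have hJ : Fintype.card J = monomials u D := by
    rw [Fintype.card_sigma]
    simp only [Fintype.card_coe, hcell]
    rw [Fin.sum_univ_eq_sum_range (fun t => (u + t).choose (t + 1)) D]
    rfl
  have hprod : ∏ j : J, (12 * Fintype.card J * w ^ ((j.1 : ℕ) + 1))
      = ∏ t ∈ range D, (12 * monomials u D * w ^ (t + 1)) ^ (u + t).choose (t + 1) := by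
    rw [hJ, Fintype.prod_sigma]
    simp only [prod_const, card_univ, Fintype.card_coe, hcell]
    rw [Fin.prod_univ_eq_prod_range
      (fun t => (12 * monomials u D * w ^ (t + 1)) ^ (u + t).choose (t + 1)) D]
  have hW : ∀ j : J, 1 ≤ w ^ ((j.1 : ℕ) + 1) := by
    intro j
    apply Nat.one_le_pow
    have h1 := (mem_piAntidiag.1 j.2.2).1
    have hu0 : u ≠ 0 := by
      intro h0
      subst h0
      simp at h1
    rcases Nat.eq_zero_or_pos w with h0 | h0
    · rw [h0, zero_pow hu0] at hwu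
      exact absurd hwu (lt_irrefl _)
    · exact h0
  obtain ⟨S, hSc, hS⟩ := pigeon hMpos (fun (a : Fin N) (j : J) => (Q a).coeff (extend j.2.1))
    (fun j => 12 * Fintype.card J * w ^ ((j.1 : ℕ) + 1))
    (by
      intro j
      have h1 : 0 < Fintype.card J := Fintype.card_pos_iff.mpr ⟨j⟩
      have h2 := hW j
      positivity)
    (by
      rw [Fintype.card_fin, hprod]
      have h1 : (((M - 1) * ∏ t ∈ range D,
          (12 * monomials u D * w ^ (t + 1)) ^ (u + t).choose (t + 1) : ℕ) : ℝ) < N := by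
        refine lt_of_le_of_lt ?_ hcon
        rw [Nat.cast_mul, Nat.cast_sub hMpos]
        push_cast
        exact mul_le_mul_of_nonneg_right hM2 (prod_nonneg fun t _ => by positivity)
      exact_mod_cast h1)
  -- the sub-box
  set g : Fin s → ℕ := fun j => if (j : ℕ) < u then w else 1 with hg
  set Y : Finset (Fin s → Fin q) :=
    Fintype.piFinset (fun j => univ.filter (fun t : Fin q => (t : ℕ) < g j)) with hY
  have hgN : ∀ j, g j ≤ q := by
    intro j
    simp only [hg]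
    split_ifs
    · exact hw
    · exact hq
  have hYc : Y.card = w ^ u := by
    rw [hY, Fintype.card_piFinset]
    have h1 : ∀ j : Fin s, (univ.filter (fun t : Fin q => (t : ℕ) < g j)).card = g j := by
      intro j
      have := Fin.card_filter_val_lt (n := q) (m := g j)
      simpa [min_eq_right (hgN j)] using this
    simp_rw [h1]
    simp only [hg]
    rw [prod_ite, prod_const, prod_const_one, mul_one]
    congr 1
    have := Fin.card_filter_val_lt (n := s) (m := u)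
    simpa [min_eq_right hu] using this
  have hy1 : ∀ y ∈ Y, ∀ j : Fin s, (y j : ℕ) < g j := by
    intro y hy j
    have := (Fintype.mem_piFinset.1 hy) j
    simpa using this
  have hal := aligned (J := J)
    (fun (a : Fin N) (y : Fin s → Fin q) => MvPolynomial.eval (fun j => ((y j : ℕ) : ℝ)) (Q a))
    (fun j y => ∏ i : Fin u, (((y (Fin.castLE hu i) : ℕ)) : ℤ) ^ j.2.1 i)
    (fun a => (Q a).coeff (extend (0 : Fin u → ℕ)))
    (fun a j => (Q a).coeff (extend j.2.1)) (fun j => w ^ ((j.1 : ℕ) + 1)) hW Y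
    (by
      intro y hy j
      rw [abs_of_nonneg (prod_nonneg fun i _ => by positivity)]
      have h1 := (mem_piAntidiag.1 j.2.2).1
      calc ∏ i : Fin u, (((y (Fin.castLE hu i) : ℕ)) : ℤ) ^ j.2.1 i
          ≤ ∏ i : Fin u, (w : ℤ) ^ j.2.1 i := by
            refine prod_le_prod (fun i _ => by positivity) fun i _ => ?_
            refine pow_le_pow_left₀ (by positivity) ?_ _
            have h2 := hy1 y hy (Fin.castLE hu i)
            simp only [hg] at h2
            rw [if_pos (by simp)] at h2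
            exact_mod_cast h2.le
        _ = ((w ^ ((j.1 : ℕ) + 1) : ℕ) : ℤ) := by
            rw [prod_pow_eq_pow_sum, h1]
            push_cast
            rfl)
    (by
      intro y hy a
      rw [eval_box hu (Q a) (hQ a) _ (by
        intro j hj
        have h2 := hy1 y hy j
        simp only [hg] at h2
        rw [if_neg (by omega)] at h2
        have h3 : (y j : ℕ) = 0 := by omega
        rw [h3, Nat.cast_zero])]
      rw [sum_range_succ', piAntidiag_zero, sum_singleton, add_comm]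
      simp only [Pi.zero_apply, pow_zero, prod_const_one, mul_one]
      congr 1
      rw [Fintype.sum_sigma]
      rw [← Fin.sum_univ_eq_sum_range (fun t => ∑ α ∈ piAntidiag (univ : Finset (Fin u)) (t + 1),
        (Q a).coeff (extend α) * ∏ i : Fin u, (((y (Fin.castLE hu i) : ℕ)) : ℝ) ^ α i) D]
      refine sum_congr rfl fun t _ => ?_
      rw [← Finset.sum_coe_sort (piAntidiag (univ : Finset (Fin u)) ((t : ℕ) + 1))
        (fun α => (Q a).coeff (extend α) * ∏ i : Fin u, (((y (Fin.castLE hu i) : ℕ)) : ℝ) ^ α i)]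
      refine sum_congr rfl fun α _ => ?_
      push_cast
      rfl) S hSc hS
  have hcardι : (q : ℝ) ^ s = ((Fintype.card (Fin s → Fin q) : ℕ) : ℝ) := by
    rw [Fintype.card_fun, Fintype.card_fin, Fintype.card_fin]
    push_cast
    rfl
  have hen := energy (μ := μ) hcardι
    (fun (a : Fin N) (y : Fin s → Fin q) => MvPolynomial.eval (fun j => ((y j : ℕ) : ℝ)) (Q a))
    S hSc (fun a => e (-(Q a).coeff (extend (0 : Fin u → ℕ)))) (fun a => norm_e _) Y hal
    (fun a _ b _ hab => by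
      rw [norm_inner_phase hq (Q b) (Q a)]
      exact mul_le_mul_of_nonneg_right (hcoh b a (Ne.symm hab)) hqs.le) hMpos
  rw [hYc] at hen
  push_cast at hen
  have hM0 : (0 : ℝ) < M := by exact_mod_cast hMpos
  have h1 : (M : ℝ) * (4 * (w : ℝ) ^ u * M) ≤ M * (5 * (q : ℝ) ^ s * (1 + (M - 1) * μ)) := by
    nlinarith
  have h2 := le_of_mul_le_mul_left h1 hM0
  have h3 : R * (4 * (w : ℝ) ^ u - 5 * μ * (q : ℝ) ^ s) = 5 * (1 - μ) * (q : ℝ) ^ s := by
    rw [hR]
    field_simp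
  have h4 := mul_lt_mul_of_pos_right hM1 hden
  rw [h3] at h4
  linarith

end Pool.Agent.Results.MP_40fe51_an.PolynomialPhases
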